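import Pool.Agent.L5helper46.RP.Unc

/-!
# Random reals destroy the polarized relation at the dominating number

Sentences of the forcing language are represented by the sets of the conditions which force them (starting files
`TH773.PSet.Defs`, `R593.Rnd.Defs`). After adding at least `𝔡` random reals the dominating number is the same cardinal,
and the polarized relation fails at it, even with an uncountable set in place of a set of size `𝔡`.
-/

set_option autoImplicit false

open Cardinal MeasureTheory Pool.Agent.TH773.PSet Pool.Agent.R593.Rnd Pool.Agent.L5helper46.RP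

namespace Pool.Agent.Results.MP_95a70f_lc.RandomRealsDestroy

theorem result :
    -- at the dominating number
    (∀ I : Type, dNum ≤ #I → ∀ p : Random I,
      p ∈ CardinalsPreserved.{0, 0} (Random I) ∧ p ∈ DominatingIs.{0, 0} (Random I) dNum ∧
      p ∈ fnot (Polarized (Random I) dNum.out) ∧ p ∈ fnot (WeakPolarized (Random I) dNum.out)) ∧
    -- the implication of the question
    (∀ I : Type, dNum ≤ #I →
      ((PolarizedRel dNum.out → ∀ p : Random I, p ∈ Polarized (Random I) dNum.out) ↔ ¬ PolarizedRel dNum.out)) ∧
    -- at every uncountable cardinal up to the number of the random reals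
    (∀ I K : Type, ℵ₀ < #K → #K ≤ #I → ∀ p : Random I,
      p ∈ fnot (Polarized (Random I) K) ∧ p ∈ fnot (WeakPolarized (Random I) K)) ∧
    -- the meaning of the sentences over the trivial forcing
    ℵ₀ < dNum ∧
    (∀ K : Type, () ∈ Polarized Unit K ↔ PolarizedRel K) ∧
    (∀ K : Type, Nonempty K → (() ∈ WeakPolarized Unit K ↔ WeakRel K)) ∧
    ∀ κ : Cardinal.{0}, () ∈ DominatingIs Unit κ ↔ dNum = κ := by
  refine ⟨fun I hI p => ⟨cardinalsPreserved p, dominatingIs p, ?_, ?_⟩, fun I hI => ⟨fun h hrel => ?_, fun hn h =>
    absurd h hn⟩, fun I K hK hKI p => ⟨not_polarized hK hKI p, not_weakPolarized hK hKI p⟩, aleph0_lt_dNum,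
    fun K => unit_polarized, fun K hK => unit_weakPolarized, fun κ => unit_dominatingIs⟩
  · exact not_polarized (by rw [mk_out]; exact aleph0_lt_dNum) (by rw [mk_out]; exact hI) p
  · exact not_weakPolarized (by rw [mk_out]; exact aleph0_lt_dNum) (by rw [mk_out]; exact hI) p
  · have p : Random I := ⟨Set.univ, MeasurableSet.univ, by
      unfold coinProduct
      simp⟩
    exact not_polarized (by rw [mk_out]; exact aleph0_lt_dNum) (by rw [mk_out]; exact hI) p p le_rfl (h hrel p)

end Pool.Agent.Results.MP_95a70f_lc.RandomRealsDestroy
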